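import Mathlib
import Pool.Agent.TH738.LR.Fin

/-!
List Ramsey numbers of stars: they are equal to the Ramsey numbers for all stars with at least
three edges and every number of colours.
-/

set_option autoImplicit false

namespace Pool.Agent.Results.MP_fbd69e_co.AllStarsButPaths

open Finset Pool.Agent.TH738.LR

/-- `R_ℓ(K_{1,r}, k)`: the least `n` such that for some assignment `L` of lists of size `k` to the
edges of `K_n` every colouring from the lists has a monochromatic star with `r` edges. -/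
noncomputable def listRamseyStar (r k : ℕ) : ℕ :=
  sInf {n : ℕ | ∃ L : Fin n → Fin n → Finset ℕ,
    (∀ v w : Fin n, v ≠ w → L v w = L w v ∧ (L v w).card = k) ∧
    ∀ c : Fin n → Fin n → ℕ,
      (∀ v w : Fin n, v ≠ w → c v w = c w v ∧ c v w ∈ L v w) →
      ∃ v : Fin n, ∃ a : ℕ, ∃ S : Finset (Fin n),
        S.card = r ∧ v ∉ S ∧ ∀ w ∈ S, c v w = a}

/-- `R(K_{1,r}, k)`: the least `n` such that every colouring of the edges of `K_n` with `k` colours
has a monochromatic star with `r` edges. -/
noncomputable def ramseyStar (r k : ℕ) : ℕ :=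
  sInf {n : ℕ | ∀ c : Fin n → Fin n → Fin k,
    (∀ v w : Fin n, v ≠ w → c v w = c w v) →
    ∃ v : Fin n, ∃ a : Fin k, ∃ S : Finset (Fin n),
      S.card = r ∧ v ∉ S ∧ ∀ w ∈ S, c v w = a}

/-- Every colouring of a large complete graph has a star. -/
theorem star_mem (r k : ℕ) (hr : 1 ≤ r) (hk : 1 ≤ k)
    (c : Fin (ord r k + 1) → Fin (ord r k + 1) → Fin k) (hc : ∀ v w, v ≠ w → c v w = c w v) :
    ∃ v, ∃ a : Fin k, ∃ S : Finset (Fin (ord r k + 1)),
      S.card = r ∧ v ∉ S ∧ ∀ w ∈ S, c v w = a := by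
  classical
  by_contra hcon
  push Not at hcon
  -- all colour classes have degree at most `r - 1`
  have hle : ∀ v a, ((univ.erase v).filter (fun w => c v w = a)).card ≤ r - 1 := by
    intro v a
    by_contra hlt
    obtain ⟨S, hS1, hS2⟩ := Finset.exists_subset_card_eq
      (show r ≤ ((univ.erase v).filter (fun w => c v w = a)).card by omega)
    obtain ⟨w, hw1, hw2⟩ := hcon v a S hS2 (fun hv => by
      have := hS1 hv
      simp at this)
    exact hw2 (mem_filter.1 (hS1 hw1)).2
  have hsum : ∀ v, ∑ a : Fin k, ((univ.erase v).filter (fun w => c v w = a)).card = ord r k := by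
    intro v
    rw [← Finset.card_eq_sum_card_fiberwise (f := fun w => c v w) (t := univ)
      (fun _ _ => mem_coe.2 (mem_univ _)), card_erase_of_mem (mem_univ _), card_univ,
      Fintype.card_fin]
    omega
  have hbound : ∀ _v : Fin (ord r k + 1), ord r k ≤ k * (r - 1) := by
    intro v
    rw [← hsum v]
    calc ∑ a : Fin k, ((univ.erase v).filter (fun w => c v w = a)).card
        ≤ ∑ _a : Fin k, (r - 1) := sum_le_sum (fun a _ => hle v a)
      _ = k * (r - 1) := by simp
  by_cases hpar : Even r ∧ Even k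
  · have hord : ord r k = k * (r - 1) := by unfold ord; rw [if_pos hpar]
    have heq : ∀ v a, ((univ.erase v).filter (fun w => c v w = a)).card = r - 1 := by
      intro v a
      have h1 : ∑ a : Fin k, ((univ.erase v).filter (fun w => c v w = a)).card =
          ∑ _a : Fin k, (r - 1) := by
        rw [hsum v, hord]; simp
      exact (Finset.sum_eq_sum_iff_of_le (fun a _ => hle v a)).1 h1 a (mem_univ _)
    let a0 : Fin k := ⟨0, hk⟩
    let G : SimpleGraph (Fin (ord r k + 1)) :=
      { Adj := fun v w => v ≠ w ∧ c v w = a0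
        symm := ⟨fun v w h => ⟨h.1.symm, by rw [← hc v w h.1]; exact h.2⟩⟩
        loopless := ⟨fun v h => h.1 rfl⟩ }
    have hdeg : ∀ v, G.degree v = r - 1 := by
      intro v
      rw [← heq v a0, ← SimpleGraph.card_neighborFinset_eq_degree]
      congr 1
      ext w
      simp only [SimpleGraph.mem_neighborFinset, mem_filter, mem_erase, mem_univ, and_true, G]
      exact ⟨fun h => ⟨h.1.symm, h.2⟩, fun h => ⟨h.1.symm, h.2⟩⟩
    have h1 := G.sum_degrees_eq_twice_card_edges
    simp only [hdeg, sum_const, card_univ, Fintype.card_fin, smul_eq_mul] at h1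
    have h2 : Odd ((ord r k + 1) * (r - 1)) := by
      refine Odd.mul ?_ ?_
      · rw [hord]
        exact (hpar.2.mul_right _).add_one
      · obtain ⟨t, ht⟩ := hpar.1
        exact ⟨t - 1, by omega⟩
    rw [h1] at h2
    exact (Nat.not_even_iff_odd.2 h2) (even_two_mul _)
  · have hord : ord r k = k * (r - 1) + 1 := by unfold ord; rw [if_neg hpar]
    have := hbound ⟨0, by omega⟩
    omega

/-- **List Ramsey numbers of stars.** For all stars `K_{1,r}` with `r ≠ 2` and all numbers `k` of
colours the list Ramsey number is equal to the Ramsey number. -/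
theorem result :
    (∀ r k : ℕ, 1 ≤ r → 1 ≤ k → r ≠ 2 →
      listRamseyStar r k = ramseyStar r k ∧
      ramseyStar r k = if Even r ∧ Even k then k * (r - 1) + 1 else k * (r - 1) + 2) ∧
    ((∀ r k : ℕ, 1 ≤ r → 1 ≤ k → listRamseyStar r k = ramseyStar r k) ↔
      ∀ k : ℕ, 1 ≤ k → listRamseyStar 2 k = ramseyStar 2 k) := by
  have key : ∀ r k : ℕ, 1 ≤ r → 1 ≤ k → r ≠ 2 →
      listRamseyStar r k = ramseyStar r k ∧
      ramseyStar r k = if Even r ∧ Even k then k * (r - 1) + 1 else k * (r - 1) + 2 := by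
    intro r k hr hk hr2
    -- the order `ord r k + 1` is enough
    have hB := star_mem r k hr hk
    have hA : ∃ L : Fin (ord r k + 1) → Fin (ord r k + 1) → Finset ℕ,
        (∀ v w, v ≠ w → L v w = L w v ∧ (L v w).card = k) ∧
        ∀ c : Fin (ord r k + 1) → Fin (ord r k + 1) → ℕ,
          (∀ v w, v ≠ w → c v w = c w v ∧ c v w ∈ L v w) →
          ∃ v, ∃ a : ℕ, ∃ S : Finset (Fin (ord r k + 1)),
            S.card = r ∧ v ∉ S ∧ ∀ w ∈ S, c v w = a := by
      refine ⟨fun _ _ => range k, fun _ _ _ => ⟨rfl, card_range k⟩, ?_⟩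
      intro c hc
      have hlt : ∀ v w, v ≠ w → c v w < k := fun v w h => mem_range.1 (hc v w h).2
      obtain ⟨v, a, S, h1, h2, h3⟩ := hB
        (fun v w => if h : c v w < k then ⟨c v w, h⟩ else ⟨0, hk⟩) (by
          intro v w hvw
          have e := (hc v w hvw).1
          simp only [e])
      refine ⟨v, a, S, h1, h2, ?_⟩
      intro w hw
      have hvw : v ≠ w := fun h => h2 (by rw [h]; exact hw)
      have h4 := h3 w hw
      rw [dif_pos (hlt v w hvw)] at h4
      rw [← h4]
    have hlow : ∀ n, (∃ L : Fin n → Fin n → Finset ℕ,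
        (∀ v w : Fin n, v ≠ w → L v w = L w v ∧ (L v w).card = k) ∧
        ∀ c : Fin n → Fin n → ℕ,
          (∀ v w : Fin n, v ≠ w → c v w = c w v ∧ c v w ∈ L v w) →
          ∃ v : Fin n, ∃ a : ℕ, ∃ S : Finset (Fin n),
            S.card = r ∧ v ∉ S ∧ ∀ w ∈ S, c v w = a) → ord r k + 1 ≤ n := by
      rintro n ⟨L, hL, hc⟩
      by_contra hlt
      obtain ⟨c, h1, h2⟩ := good_all r k hr hr2 hk n (by omega) L hL
      obtain ⟨v, a, S, h3, h4, h5⟩ := hc c h1
      have := h2 v a S h4 h5
      omega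
    have hsub : ∀ n, (∀ c : Fin n → Fin n → Fin k,
        (∀ v w : Fin n, v ≠ w → c v w = c w v) →
        ∃ v : Fin n, ∃ a : Fin k, ∃ S : Finset (Fin n),
          S.card = r ∧ v ∉ S ∧ ∀ w ∈ S, c v w = a) → ord r k + 1 ≤ n := by
      intro n hn
      apply hlow
      refine ⟨fun _ _ => range k, fun _ _ _ => ⟨rfl, card_range k⟩, ?_⟩
      intro c hc
      have hlt : ∀ v w, v ≠ w → c v w < k := fun v w h => mem_range.1 (hc v w h).2
      obtain ⟨v, a, S, h1, h2, h3⟩ := hn
        (fun v w => if h : c v w < k then ⟨c v w, h⟩ else ⟨0, hk⟩) (by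
          intro v w hvw
          have e := (hc v w hvw).1
          simp only [e])
      refine ⟨v, a, S, h1, h2, ?_⟩
      intro w hw
      have hvw : v ≠ w := fun h => h2 (by rw [h]; exact hw)
      have h4 := h3 w hw
      rw [dif_pos (hlt v w hvw)] at h4
      rw [← h4]
    have eA : listRamseyStar r k = ord r k + 1 := by
      apply le_antisymm
      · exact Nat.sInf_le hA
      · exact hlow _ (Nat.sInf_mem (s := {n : ℕ | ∃ L : Fin n → Fin n → Finset ℕ,
          (∀ v w : Fin n, v ≠ w → L v w = L w v ∧ (L v w).card = k) ∧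
          ∀ c : Fin n → Fin n → ℕ,
            (∀ v w : Fin n, v ≠ w → c v w = c w v ∧ c v w ∈ L v w) →
            ∃ v : Fin n, ∃ a : ℕ, ∃ S : Finset (Fin n),
              S.card = r ∧ v ∉ S ∧ ∀ w ∈ S, c v w = a}) ⟨_, hA⟩)
    have eB : ramseyStar r k = ord r k + 1 := by
      apply le_antisymm
      · exact Nat.sInf_le hB
      · exact hsub _ (Nat.sInf_mem (s := {n : ℕ | ∀ c : Fin n → Fin n → Fin k,
          (∀ v w : Fin n, v ≠ w → c v w = c w v) →
          ∃ v : Fin n, ∃ a : Fin k, ∃ S : Finset (Fin n),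
            S.card = r ∧ v ∉ S ∧ ∀ w ∈ S, c v w = a}) ⟨_, hB⟩)
    refine ⟨eA.trans eB.symm, ?_⟩
    rw [eB]
    unfold ord
    split_ifs <;> rfl
  refine ⟨key, ⟨fun h k hk => h 2 k (by norm_num) hk, fun h r k hr hk => ?_⟩⟩
  by_cases hr2 : r = 2
  · subst hr2
    exact h k hk
  · exact (key r k hr hk hr2).1

end Pool.Agent.Results.MP_fbd69e_co.AllStarsButPaths
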